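import Pool.Agent.H15.TG.Targets

set_option autoImplicit false

namespace Pool.Agent.H53.TG

open MvPolynomial Pool.Agent.H2.ST Pool.Agent.H15.TG

/-- the centralizer of f is graded -/
theorem pf_CGR : T_CGR := by
  classical
  intro k _ _ _ m d W K H f h g hg χ
  rw [mem_Cf] at hg
  obtain ⟨hgK, hgf⟩ := hg
  obtain ⟨c, hc, hcs⟩ := h.cp g hgK
  have hcg : cmp h.toGr g = c := cmp_uniq h.toGr g c (fun a => (hc a).1) hcs
  have hmem : cmp h.toGr g χ ∈ W χ := cmp_mem h.toGr g χ
  refine ⟨?_, hmem⟩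
  rw [mem_Cf]
  refine ⟨by rw [hcg]; exact (hc χ).2, ?_⟩
  let c' : (Fin d → ℤ) →₀ Pol k m := Finsupp.mapRange (br f) (br_zero f) c
  have h1 : c' = 0 := by
    refine h.ind c' (fun a => ?_) ?_
    · show (Finsupp.mapRange (br f) (br_zero f) c) a ∈ W a
      rw [Finsupp.mapRange_apply]
      have h2 := h.pbr 0 a f _ h.f0 (hc a).1
      rwa [zero_add] at h2
    · show ((Finsupp.mapRange (br f) (br_zero f) c).sum fun _ x => x) = 0
      rw [Finsupp.sum_mapRange_index (fun _ => rfl)]
      have h3 : (c.sum fun _ x => br f x) = br f g := by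
        rw [← hcs]
        unfold Finsupp.sum
        rw [br_sum]
      rw [h3, hgf]
  have h4 := congrArg (fun z : (Fin d → ℤ) →₀ Pol k m => z χ) h1
  simp only [Finsupp.coe_zero, Pi.zero_apply] at h4
  rw [hcg]
  have h5 : c' χ = br f (c χ) := by
    show (Finsupp.mapRange (br f) (br_zero f) c) χ = _
    rw [Finsupp.mapRange_apply]
  rw [← h5]; exact h4

end Pool.Agent.H53.TG
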