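import Pool.Agent.H15.TG.Targets

set_option autoImplicit false

namespace Pool.Agent.H53.TG

open MvPolynomial Pool.Agent.H2.ST Pool.Agent.H15.TG

section shift

variable {k : Type} [Field k] {m : ℕ}

/-- the bracket with `f` on all polynomials, when it is known on the variables -/
theorem br_ext (ψ : Pol k m →ₐ[k] Pol k m) (f : Pol k m)
    (hX : ∀ s, ψ (br f (X s)) = br (ψ f) (ψ (X s))) (g : Pol k m) :
    ψ (br f g) = br (ψ f) (ψ g) := by
  induction g using MvPolynomial.induction_on with
  | C a =>
    have e : ψ (C a) = C a := by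
      simp
    rw [e, br_C, br_C, map_zero]
  | add p q hp hq => rw [br_add, map_add, map_add, br_add, hp, hq]
  | mul_X p s hp => rw [br_mul, map_add, map_mul, map_mul, map_mul, br_mul, hp, hX]

/-- an endomorphism preserving the brackets of the variables preserves the bracket -/
theorem symp_of_vars (ψ : Pol k m →ₐ[k] Pol k m)
    (hX : ∀ s t, ψ (br (X s) (X t)) = br (ψ (X s)) (ψ (X t))) (f g : Pol k m) :
    ψ (br f g) = br (ψ f) (ψ g) := by
  refine br_ext ψ f (fun s => ?_) g
  rw [br_anti, map_neg, br_ext ψ (X s) (fun t => hX s t) f, ← br_anti]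

/-- the bracket of two variables is a constant -/
theorem br_XX (s t : Fin m ⊕ Fin m) : ∃ c : k, br (X s : Pol k m) (X t) = C c := by
  classical
  rcases t with j | j
  · rw [br_inl, pderiv_X]
    by_cases h : s = Sum.inr j
    · exact ⟨-1, by rw [h, Pi.single_eq_same, C_neg, C_1]⟩
    · exact ⟨0, by rw [Pi.single_eq_of_ne h, neg_zero, C_0]⟩
  · rw [br_inr, pderiv_X]
    by_cases h : s = Sum.inl j
    · exact ⟨1, by rw [h, Pi.single_eq_same, C_1]⟩
    · exact ⟨0, by rw [Pi.single_eq_of_ne h, C_0]⟩

/-- the shift along `f` -/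
noncomputable def th (f : Pol k m) (t : k) : Pol k m →ₐ[k] Pol k m :=
  aeval fun s => X s + C t * br f (X s)

theorem th_X (f : Pol k m) (t : k) (s : Fin m ⊕ Fin m) :
    th f t (X s) = X s + C t * br f (X s) := by
  unfold th
  rw [aeval_X]

theorem th_fix (f : Pol k m) (S : Set (Fin m ⊕ Fin m)) (h2 : ∀ s ∈ S, br f (X s) = 0) (t : k)
    (g : Pol k m) (hg : g ∈ supported k S) : th f t g = g := by
  rw [supported] at hg
  induction hg using Algebra.adjoin_induction with
  | mem x hx =>
    obtain ⟨s, hs, rfl⟩ := hx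
    rw [th_X, h2 s hs, mul_zero, add_zero]
  | algebraMap r => exact (th f t).commutes r
  | add x y _ _ hx hy => rw [map_add, hx, hy]
  | mul x y _ _ hx hy => rw [map_mul, hx, hy]

theorem th_zero (f : Pol k m) : th f 0 = AlgHom.id k (Pol k m) := by
  apply MvPolynomial.algHom_ext
  intro s
  rw [th_X, C_0, zero_mul, add_zero]
  rfl

theorem th_comp (f : Pol k m) (S : Set (Fin m ⊕ Fin m)) (h1 : ∀ s, br f (X s) ∈ supported k S)
    (h2 : ∀ s ∈ S, br f (X s) = 0) (s t : k) : (th f s).comp (th f t) = th f (s + t) := by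
  apply MvPolynomial.algHom_ext
  intro u
  rw [AlgHom.comp_apply, th_X, th_X, map_add, map_mul, th_X,
    th_fix f S h2 s _ (h1 u)]
  have e : th f s (C t) = C t := (th f s).commutes t
  rw [e, C_add]
  ring

/-- elements of the subalgebra generated by commuting variables commute -/
theorem br_supp (S : Set (Fin m ⊕ Fin m))
    (h3 : ∀ s ∈ S, ∀ t ∈ S, br (X s : Pol k m) (X t) = 0) (g h : Pol k m)
    (hg : g ∈ supported k S) (hh : h ∈ supported k S) : br g h = 0 := by
  rw [supported] at hg hh
  induction hg using Algebra.adjoin_induction with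
  | mem x hx =>
    obtain ⟨s, hs, rfl⟩ := hx
    induction hh using Algebra.adjoin_induction with
    | mem y hy =>
      obtain ⟨t, ht, rfl⟩ := hy
      exact h3 s hs t ht
    | algebraMap r => exact br_C _ r
    | add x y _ _ hx hy => rw [br_add, hx, hy, add_zero]
    | mul x y _ _ hx hy => rw [br_mul, hx, hy, mul_zero, mul_zero, add_zero]
  | algebraMap r => exact C_br _ r
  | add x y _ _ hx hy => rw [add_br, hx, hy, add_zero]
  | mul x y _ _ hx hy => rw [mul_br, hx, hy, mul_zero, mul_zero, add_zero]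

theorem th_symp (f : Pol k m) (S : Set (Fin m ⊕ Fin m)) (h1 : ∀ s, br f (X s) ∈ supported k S)
    (h3 : ∀ s ∈ S, ∀ t ∈ S, br (X s : Pol k m) (X t) = 0) (t : k) (g h : Pol k m) :
    th f t (br g h) = br (th f t g) (th f t h) := by
  refine symp_of_vars (th f t) (fun u v => ?_) g h
  obtain ⟨c, hc⟩ := br_XX (k := k) u v
  have e : th f t (C c) = C c := (th f t).commutes c
  rw [hc, e, th_X, th_X, add_br, br_add, br_add, hc]
  have hj := jac f (X u) (X v)
  rw [hc, br_C] at hj
  have hCt : ∀ a b : Pol k m, br a (C t * b) = C t * br a b := fun a b => by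
    rw [br_mul, br_C, mul_zero, add_zero]
  have hCt' : ∀ a b : Pol k m, br (C t * a) b = C t * br a b := fun a b => by
    rw [mul_br, C_br, mul_zero, add_zero]
  rw [hCt, hCt', hCt', hCt, br_supp S h3 _ _ (h1 u) (h1 v)]
  linear_combination (C t) * hj

/-- the action of the additive group by shifts along `f` -/
noncomputable def thE (f : Pol k m) (S : Set (Fin m ⊕ Fin m))
    (h1 : ∀ s, br f (X s) ∈ supported k S) (h2 : ∀ s ∈ S, br f (X s) = 0) :
    Multiplicative k →* (Pol k m ≃ₐ[k] Pol k m) where
  toFun a := AlgEquiv.ofAlgHom (th f a.toAdd) (th f (-a.toAdd))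
    (by rw [th_comp f S h1 h2, add_neg_cancel, th_zero])
    (by rw [th_comp f S h1 h2, neg_add_cancel, th_zero])
  map_one' := by
    ext s : 1
    rw [AlgEquiv.ofAlgHom_apply, toAdd_one, th_zero]
    rfl
  map_mul' a b := by
    ext s : 1
    rw [AlgEquiv.ofAlgHom_apply, AlgEquiv.mul_apply, AlgEquiv.ofAlgHom_apply,
      AlgEquiv.ofAlgHom_apply, toAdd_mul, ← th_comp f S h1 h2]
    rfl

theorem thE_apply (f : Pol k m) (S : Set (Fin m ⊕ Fin m))
    (h1 : ∀ s, br f (X s) ∈ supported k S) (h2 : ∀ s ∈ S, br f (X s) = 0)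
    (a : Multiplicative k) (g : Pol k m) : thE f S h1 h2 a g = th f a.toAdd g := rfl

end shift

/-- the additive group action of a monomial -/
theorem pf_CN1 : T_CN1 := by
  classical
  intro k _ _ m c hc0
  let α : Fin m ⊕ Fin m →₀ ℕ :=
    Finsupp.equivFunOnFinite.symm (Sum.elim (fun i => (c i).toNat) (fun i => (-c i).toNat))
  have hαl : ∀ i, α (Sum.inl i) = (c i).toNat := fun _ => rfl
  have hαr : ∀ i, α (Sum.inr i) = (-c i).toNat := fun _ => rfl
  let f : Pol k m := monomial α 1
  let S : Set (Fin m ⊕ Fin m) := {s | α s ≠ 0}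
  have hpd : ∀ s, pderiv s f = monomial (α - Finsupp.single s 1) ((α s : ℕ) : k) := by
    intro s
    show pderiv s (monomial α (1 : k)) = _
    rw [pderiv_monomial, one_mul]
  have hpd1 : ∀ s, pderiv s f ∈ supported k S := by
    intro s
    rw [hpd]
    by_cases h0 : ((α s : ℕ) : k) = 0
    · rw [h0, monomial_zero]; exact Subalgebra.zero_mem _
    · rw [mem_supported, vars_monomial h0]
      intro u hu
      have h3 : (α - Finsupp.single s 1 : Fin m ⊕ Fin m →₀ ℕ) u ≠ 0 := by simpa using hu
      rw [Finsupp.tsub_apply] at h3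
      show α u ≠ 0
      omega
  have hpd0 : ∀ s, α s = 0 → pderiv s f = 0 := by
    intro s hs
    rw [hpd, hs, Nat.cast_zero, monomial_zero]
  have h1 : ∀ s, br f (X s) ∈ supported k S := by
    intro s
    rcases s with i | i
    · rw [br_inl]; exact Subalgebra.neg_mem _ (hpd1 _)
    · rw [br_inr]; exact hpd1 _
  have h2 : ∀ s ∈ S, br f (X s) = 0 := by
    intro s hs
    rcases s with i | i
    · rw [br_inl, hpd0, neg_zero]
      have h4 : α (Sum.inl i) ≠ 0 := hs
      rw [hαl] at h4
      rw [hαr]; omega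
    · rw [br_inr, hpd0]
      have h4 : α (Sum.inr i) ≠ 0 := hs
      rw [hαr] at h4
      rw [hαl]; omega
  have h3 : ∀ s ∈ S, ∀ t ∈ S, br (X s : Pol k m) (X t) = 0 := by
    intro s hs t ht
    rcases t with j | j
    · rw [br_inl, pderiv_X, Pi.single_eq_of_ne, neg_zero]
      intro he
      rw [he] at hs
      have h4 : α (Sum.inr j) ≠ 0 := hs
      have h5 : α (Sum.inl j) ≠ 0 := ht
      rw [hαr] at h4
      rw [hαl] at h5
      omega
    · rw [br_inr, pderiv_X, Pi.single_eq_of_ne]
      intro he
      rw [he] at hs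
      have h4 : α (Sum.inl j) ≠ 0 := hs
      have h5 : α (Sum.inr j) ≠ 0 := ht
      rw [hαl] at h4
      rw [hαr] at h5
      omega
  refine ⟨thE f S h1 h2, ?_, ?_, ?_, ?_⟩
  · refine ⟨fun s => Polynomial.C (X s) + Polynomial.C (br f (X s)) * Polynomial.X, fun t s => ?_⟩
    rw [thE_apply, toAdd_ofAdd, th_X]
    simp only [Polynomial.eval_add, Polynomial.eval_mul, Polynomial.eval_C, Polynomial.eval_X]
    ring
  · intro s g h
    rw [thE_apply, thE_apply, thE_apply]
    exact th_symp f S h1 h3 _ g h
  · refine ⟨Multiplicative.ofAdd 1, fun h => hc0 ?_⟩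
    have h4 : ∀ s, br f (X s) = 0 := by
      intro s
      have h5 : thE f S h1 h2 (Multiplicative.ofAdd 1) (X s) = X s := by rw [h]; rfl
      rw [thE_apply, toAdd_ofAdd, th_X, C_1, one_mul] at h5
      exact add_eq_left.1 h5
    have h6 : ∀ s, α s = 0 := by
      intro s
      have h7 : pderiv s f = 0 := by
        rcases s with i | i
        · rw [← br_inr]; exact h4 _
        · have := h4 (Sum.inl i)
          rw [br_inl] at this
          exact neg_eq_zero.1 this
      rw [hpd, monomial_eq_zero] at h7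
      exact_mod_cast h7
    funext i
    have h8 := h6 (Sum.inl i)
    have h9 := h6 (Sum.inr i)
    rw [hαl] at h8
    rw [hαr] at h9
    rw [Pi.zero_apply]
    omega
  · intro μ δ hδ hμ s
    -- δ is symplectic
    have hδC : ∀ c : k, δ (C c) = C c := fun c => δ.commutes c
    have hδS : ∀ g h, δ (br g h) = br (δ g) (δ h) := by
      intro g h
      have h4 := symp_of_vars (δ : Pol k m →ₐ[k] Pol k m) (fun u v => ?_) g h
      · exact h4
      · show δ (br (X u) (X v)) = br (δ (X u)) (δ (X v))
        have hCC : ∀ (a b : k) (x y : Pol k m), br (C a * x) (C b * y) = C (a * b) * br x y := by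
          intro a b x y
          rw [br_mul, br_C, mul_zero, add_zero, mul_br, C_br, mul_zero, add_zero, C_mul]
          ring
        rcases u with i | i <;> rcases v with j | j
        · rw [(hδ i).1, (hδ j).1, hCC, br_inl, pderiv_X_of_ne (by simp), neg_zero, map_zero,
            mul_zero]
        · rw [(hδ i).1, (hδ j).2, hCC, br_inr]
          by_cases hij : i = j
          · subst hij
            rw [pderiv_X_self, map_one, Units.mul_inv, C_1, one_mul]
          · rw [pderiv_X_of_ne (by simpa using hij), map_zero, mul_zero]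
        · rw [(hδ i).2, (hδ j).1, hCC, br_inl]
          by_cases hij : i = j
          · subst hij
            rw [pderiv_X_self, map_neg, map_one, Units.inv_mul, C_1, one_mul]
          · rw [pderiv_X_of_ne (by simpa using hij), neg_zero, map_zero, mul_zero]
        · rw [(hδ i).2, (hδ j).2, hCC, br_inr, pderiv_X_of_ne (by simp), map_zero, mul_zero]
    have hδf : δ f = f := by
      have h4 : δ f = aeval (fun u => δ (X u)) f := by
        have h5 := MvPolynomial.aeval_unique (δ : Pol k m →ₐ[k] Pol k m)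
        have h6 := congrArg (fun z : Pol k m →ₐ[k] Pol k m => z f) h5
        exact h6
      have h5 : f = (∏ i, (X (Sum.inl i) : Pol k m) ^ (c i).toNat) *
          ∏ i, (X (Sum.inr i) : Pol k m) ^ (-c i).toNat := by
        show monomial α (1 : k) = _
        rw [monomial_eq, C_1, one_mul, Finsupp.prod_fintype _ _ (fun _ => pow_zero _),
          Fintype.prod_sum_type]
        rfl
      have h6 : ((∏ i, C ((μ i : kˣ) : k) ^ (c i).toNat) *
          (∏ i, C (((μ i)⁻¹ : kˣ) : k) ^ (-c i).toNat) : Pol k m) = 1 := by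
        rw [← Finset.prod_mul_distrib]
        have h7 : ∀ i, (C ((μ i : kˣ) : k) ^ (c i).toNat *
            C (((μ i)⁻¹ : kˣ) : k) ^ (-c i).toNat : Pol k m) = C (((μ i ^ c i : kˣ)) : k) := by
          intro i
          rw [← C_pow, ← C_pow, ← C_mul]
          congr 1
          rw [← Units.val_pow_eq_pow_val, ← Units.val_pow_eq_pow_val, ← Units.val_mul]
          congr 1
          rw [inv_pow, ← zpow_natCast, ← zpow_natCast, ← zpow_neg, ← zpow_add]
          congr 1
          omega
        rw [Finset.prod_congr rfl fun i _ => h7 i, ← map_prod, ← Units.coe_prod, hμ]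
        simp
      conv_lhs => rw [h5]
      rw [map_mul, map_prod, map_prod]
      have h8 : ∀ i, δ ((X (Sum.inl i) : Pol k m) ^ (c i).toNat) =
          C ((μ i : kˣ) : k) ^ (c i).toNat * X (Sum.inl i) ^ (c i).toNat := by
        intro i
        rw [map_pow, (hδ i).1, mul_pow]
      have h9 : ∀ i, δ ((X (Sum.inr i) : Pol k m) ^ (-c i).toNat) =
          C (((μ i)⁻¹ : kˣ) : k) ^ (-c i).toNat * X (Sum.inr i) ^ (-c i).toNat := by
        intro i
        rw [map_pow, (hδ i).2, mul_pow]
      rw [Finset.prod_congr rfl fun i _ => h8 i, Finset.prod_congr rfl fun i _ => h9 i,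
        Finset.prod_mul_distrib, Finset.prod_mul_distrib]
      conv_rhs => rw [h5]
      linear_combination ((∏ i, (X (Sum.inl i) : Pol k m) ^ (c i).toNat) *
          ∏ i, (X (Sum.inr i) : Pol k m) ^ (-c i).toNat) * h6
    have hvar : ∀ u, ∃ a : k, δ (X u) = C a * X u := by
      intro u
      rcases u with i | i
      · exact ⟨_, (hδ i).1⟩
      · exact ⟨_, (hδ i).2⟩
    have hX : ∀ u, (thE f S h1 h2 s * δ) (X u) = (δ * thE f S h1 h2 s) (X u) := by
      intro u
      rw [AlgEquiv.mul_apply, AlgEquiv.mul_apply, thE_apply, thE_apply, th_X, map_add, map_mul,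
        hδS, hδf, hδC]
      obtain ⟨a, ha⟩ := hvar u
      have e : th f s.toAdd (C a) = C a := (th f s.toAdd).commutes a
      rw [ha, map_mul, th_X, e, br_mul, br_C]
      ring
    have h10 : ((thE f S h1 h2 s * δ : Pol k m ≃ₐ[k] Pol k m) : Pol k m →ₐ[k] Pol k m) =
        ((δ * thE f S h1 h2 s : Pol k m ≃ₐ[k] Pol k m) : Pol k m →ₐ[k] Pol k m) :=
      MvPolynomial.algHom_ext fun u => hX u
    ext g : 1
    exact congrArg (fun z : Pol k m →ₐ[k] Pol k m => z g) h10

end Pool.Agent.H53.TG
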