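import Pool.Agent.H15.TG.Targets

set_option autoImplicit false

namespace Pool.Agent.H53.TG

open MvPolynomial Pool.Agent.H2.ST Pool.Agent.H15.TG

/-- an integral relation between more than `d` vectors of `ℤ^d` -/
theorem exists_rel (m d : ℕ) (h : d < m) (w : Fin m → Fin d → ℤ) :
    ∃ c : Fin m → ℤ, c ≠ 0 ∧ ∀ j, ∑ i, c i * w i j = 0 := by
  classical
  let M : Matrix (Fin m) (Fin m) ℤ := fun i j => if hj : (j : ℕ) < d then w i ⟨j, hj⟩ else 0
  have hdet : M.det = 0 := by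
    refine Matrix.det_eq_zero_of_column_eq_zero ⟨d, h⟩ fun i => ?_
    show (if hj : d < d then w i ⟨d, hj⟩ else 0) = 0
    rw [dif_neg (lt_irrefl d)]
  obtain ⟨v, hv0, hv⟩ := Matrix.exists_vecMul_eq_zero_iff.2 hdet
  refine ⟨v, hv0, fun j => ?_⟩
  have h1 := congrFun hv ⟨j, lt_trans j.2 h⟩
  rw [Matrix.vecMul, dotProduct, Pi.zero_apply] at h1
  rw [← h1]
  refine Finset.sum_congr rfl fun i _ => ?_
  show v i * w i j = v i * (if hj : (j : ℕ) < d then w i ⟨j, hj⟩ else 0)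
  rw [dif_pos j.2]

theorem prod_zpow_sum {G ι : Type} [CommGroup G] (s : Finset ι) (a : G) (f : ι → ℤ) :
    ∏ i ∈ s, a ^ f i = a ^ ∑ i ∈ s, f i := by
  classical
  induction s using Finset.induction_on with
  | empty => simp
  | insert i s hi ih => rw [Finset.prod_insert hi, Finset.sum_insert hi, ih, zpow_add]

/-- diagonal actions commute with an additive group -/
theorem pf_CNV (hCN1 : T_CN1) : T_CNV := by
  classical
  intro k _ _ m d ρ φ w hdm hφ hρ
  obtain ⟨c, hc0, hc⟩ := exists_rel m d hdm w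
  obtain ⟨σ0, hA, hS, hN, hD⟩ := hCN1 k m c hc0
  let σ : Multiplicative k →* (Pol k m ≃ₐ[k] Pol k m) :=
    (MulAut.conj φ⁻¹).toMonoidHom.comp σ0
  have hσ : ∀ s, σ s = φ⁻¹ * σ0 s * φ := by
    intro s
    show φ⁻¹ * σ0 s * (φ⁻¹)⁻¹ = _
    rw [inv_inv]
  have hφi : ∀ f g, φ⁻¹ (br f g) = br (φ⁻¹ f) (φ⁻¹ g) := by
    intro f g
    show φ.symm (br f g) = br (φ.symm f) (φ.symm g)
    apply φ.injective
    rw [AlgEquiv.apply_symm_apply, hφ, AlgEquiv.apply_symm_apply, AlgEquiv.apply_symm_apply]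
  refine ⟨σ, ?_, ?_, ?_, ?_⟩
  · obtain ⟨F, hF⟩ := hA
    let G : Fin m ⊕ Fin m → Polynomial (Pol k m) := fun u =>
      (F u).map ((φ⁻¹ : Pol k m ≃ₐ[k] Pol k m) : Pol k m →+* Pol k m)
    refine ⟨fun l => aeval G (φ (X l)), fun t s => ?_⟩
    rw [hσ]
    show φ⁻¹ (σ0 (Multiplicative.ofAdd t) (φ (X s))) = _
    have h1 : ∀ g : Pol k m, σ0 (Multiplicative.ofAdd t) g = aeval (fun u => (F u).eval (C t)) g := by
      intro g
      have h2 := MvPolynomial.aeval_unique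
        ((σ0 (Multiplicative.ofAdd t) : Pol k m ≃ₐ[k] Pol k m) : Pol k m →ₐ[k] Pol k m)
      have h3 := congrArg (fun z : Pol k m →ₐ[k] Pol k m => z g) h2
      have h4 : (fun u => ((σ0 (Multiplicative.ofAdd t) : Pol k m ≃ₐ[k] Pol k m) :
          Pol k m →ₐ[k] Pol k m) (X u)) = fun u => (F u).eval (C t) := by
        funext u
        exact hF t u
      have h5 : (((σ0 (Multiplicative.ofAdd t) : Pol k m ≃ₐ[k] Pol k m) :
          Pol k m →ₐ[k] Pol k m) g) = aeval (fun u => ((σ0 (Multiplicative.ofAdd t) :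
          Pol k m ≃ₐ[k] Pol k m) : Pol k m →ₐ[k] Pol k m) (X u)) g := h3
      rw [h4] at h5
      exact h5
    rw [h1]
    let E : Polynomial (Pol k m) →ₐ[k] Pol k m :=
      (Polynomial.aeval (C t : Pol k m)).restrictScalars k
    have hE : ∀ p : Polynomial (Pol k m), E p = p.eval (C t) := by
      intro p
      show Polynomial.aeval (C t : Pol k m) p = _
      rw [Polynomial.aeval_def, Polynomial.eval₂_eq_eval_map]
      congr 1
      exact Polynomial.map_id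
    rw [← hE, MvPolynomial.comp_aeval_apply]
    have h6 : φ⁻¹ (aeval (fun u => (F u).eval (C t)) (φ (X s))) =
        ((φ⁻¹ : Pol k m ≃ₐ[k] Pol k m) : Pol k m →ₐ[k] Pol k m)
          (aeval (fun u => (F u).eval (C t)) (φ (X s))) := rfl
    rw [h6, MvPolynomial.comp_aeval_apply]
    have h7 : (fun u => ((φ⁻¹ : Pol k m ≃ₐ[k] Pol k m) : Pol k m →ₐ[k] Pol k m)
        ((F u).eval (C t))) = fun u => E (G u) := by
      funext u
      rw [hE]
      show _ = ((F u).map ((φ⁻¹ : Pol k m ≃ₐ[k] Pol k m) : Pol k m →+* Pol k m)).eval (C t)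
      have h8 : (C t : Pol k m) = ((φ⁻¹ : Pol k m ≃ₐ[k] Pol k m) : Pol k m →+* Pol k m) (C t) :=
        ((φ⁻¹ : Pol k m ≃ₐ[k] Pol k m).commutes t).symm
      conv_rhs => rw [h8]
      rw [Polynomial.eval_map_apply]
      rfl
    rw [h7]
  · intro s f g
    rw [hσ]
    show φ⁻¹ (σ0 s (φ (br f g))) = br (φ⁻¹ (σ0 s (φ f))) (φ⁻¹ (σ0 s (φ g)))
    rw [hφ, hS s, hφi]
  · obtain ⟨s, hs⟩ := hN
    refine ⟨s, fun h => hs ?_⟩
    rw [hσ] at h
    have h1 : σ0 s = φ * (φ⁻¹ * σ0 s * φ) * φ⁻¹ := by group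
    rw [h1, h]
    group
  · intro s t
    have hprod : ∏ i, (chr (w i) t) ^ (c i) = 1 := by
      unfold chr
      have h1 : ∀ i, (∏ j, t j ^ w i j) ^ c i = ∏ j, t j ^ (c i * w i j) := by
        intro i
        rw [← Finset.prod_zpow]
        refine Finset.prod_congr rfl fun j _ => ?_
        rw [← zpow_mul, mul_comm]
      rw [Finset.prod_congr rfl fun i _ => h1 i, Finset.prod_comm]
      refine Finset.prod_eq_one fun j _ => ?_
      rw [prod_zpow_sum, hc j, zpow_zero]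
    have h2 := hD (fun i => chr (w i) t) (φ * ρ t * φ⁻¹) (fun i => hρ t i) hprod s
    rw [hσ]
    have h3 : φ⁻¹ * σ0 s * φ * ρ t = φ⁻¹ * (σ0 s * (φ * ρ t * φ⁻¹)) * φ := by group
    have h4 : ρ t * (φ⁻¹ * σ0 s * φ) = φ⁻¹ * ((φ * ρ t * φ⁻¹) * σ0 s) * φ := by group
    rw [h3, h4, h2]

end Pool.Agent.H53.TG
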