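import Pool.Agent.H15.TG.Targets

set_option autoImplicit false

namespace Pool.Agent.H53.TG

open MvPolynomial Pool.Agent.H2.ST Pool.Agent.H15.TG

/-- dual coefficients: linear algebra -/
theorem dua_aux (k : Type) [Field k] [CharZero k] (d : ℕ) (ψ : Fin (d + 1) → Fin d → ℤ)
    (a : Fin (d + 1) → ℕ) (ap : ∀ i, 0 < a i) (ra : ∑ i, (a i : ℤ) • ψ i = 0)
    (rl : ∀ e : Fin (d + 1) → ℤ, ∑ i, e i • ψ i = 0 → ∃ N : ℤ, ∀ i, e i = N * (a i : ℤ))
    (j0 : Fin (d + 1)) : ∃ b : Fin (d + 1) → Fin d → k, Du ψ a k j0 b := by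
  classical
  let M : Matrix (Fin d) (Fin d) ℤ := fun l t => ψ (j0.succAbove l) t
  have hdet : M.det ≠ 0 := by
    intro h0
    obtain ⟨v, hv0, hv⟩ := Matrix.exists_vecMul_eq_zero_iff.2 h0
    apply hv0
    obtain ⟨N, hN⟩ := rl (j0.insertNth (α := fun _ => ℤ) 0 v) (by
      rw [Fin.sum_univ_succAbove _ j0, Fin.insertNth_apply_same, zero_smul, zero_add]
      funext t
      rw [Finset.sum_apply, Pi.zero_apply]
      have h1 := congrFun hv t
      rw [Matrix.vecMul, dotProduct, Pi.zero_apply] at h1
      rw [← h1]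
      refine Finset.sum_congr rfl fun l _ => ?_
      rw [Fin.insertNth_apply_succAbove, Pi.smul_apply, smul_eq_mul])
    have hN0 : N = 0 := by
      have h1 := hN j0
      rw [Fin.insertNth_apply_same] at h1
      rcases mul_eq_zero.1 h1.symm with h2 | h2
      · exact h2
      · exact absurd h2 (by have := ap j0; omega)
    funext l
    have h1 := hN (j0.succAbove l)
    rw [Fin.insertNth_apply_succAbove, hN0, zero_mul] at h1
    exact h1
  let Mk : Matrix (Fin d) (Fin d) k := M.map (Int.castRingHom k)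
  have hMk : IsUnit Mk.det := by
    have h1 : Mk.det = Int.castRingHom k M.det := (RingHom.map_det _ _).symm
    rw [h1, isUnit_iff_ne_zero]
    simpa using hdet
  have hinv : Mk * Mk⁻¹ = 1 := Matrix.mul_nonsing_inv Mk hMk
  have hM : ∀ l t, Mk l t = ((ψ (j0.succAbove l) t : ℤ) : k) := fun l t => rfl
  let b : Fin (d + 1) → Fin d → k :=
    j0.insertNth (α := fun _ => Fin d → k) 0 (fun i t => Mk⁻¹ t i)
  have hb : ∀ i t, b (j0.succAbove i) t = Mk⁻¹ t i := by
    intro i t
    simp only [b]
    rw [Fin.insertNth_apply_succAbove]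
  have key : ∀ i l : Fin d, ∑ t, b (j0.succAbove i) t * ((ψ (j0.succAbove l) t : ℤ) : k) =
      if i = l then 1 else 0 := by
    intro i l
    have h1 := congrFun (congrFun hinv l) i
    rw [Matrix.mul_apply, Matrix.one_apply] at h1
    by_cases hil : i = l
    · rw [if_pos hil]
      rw [if_pos hil.symm] at h1
      rw [← h1]
      exact Finset.sum_congr rfl fun t _ => by rw [hb, hM]; ring
    · rw [if_neg hil]
      rw [if_neg (fun h => hil h.symm)] at h1
      rw [← h1]
      exact Finset.sum_congr rfl fun t _ => by rw [hb, hM]; ring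
  refine ⟨b, ?_, ?_⟩
  · intro i l hi hl
    obtain ⟨i', rfl⟩ := Fin.exists_succAbove_eq hi
    obtain ⟨l', rfl⟩ := Fin.exists_succAbove_eq hl
    rw [key i' l']
    by_cases h : i' = l'
    · rw [if_pos h, if_pos (by rw [h])]
    · rw [if_neg h, if_neg (fun h2 => h (Fin.succAbove_right_injective h2))]
  · intro i hi
    obtain ⟨i', rfl⟩ := Fin.exists_succAbove_eq hi
    have hra : ∀ t, ((a j0 : ℕ) : k) * ((ψ j0 t : ℤ) : k) =
        -∑ l : Fin d, ((a (j0.succAbove l) : ℕ) : k) * ((ψ (j0.succAbove l) t : ℤ) : k) := by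
      intro t
      have h1 := congrFun ra t
      rw [Finset.sum_apply, Fin.sum_univ_succAbove _ j0, Pi.zero_apply] at h1
      have h2 := congrArg (fun z : ℤ => (z : k)) h1
      simp only [Pi.smul_apply, smul_eq_mul] at h2
      push_cast at h2
      linear_combination h2
    have ha0 : ((a j0 : ℕ) : k) ≠ 0 := by
      have := ap j0
      exact_mod_cast (by omega : a j0 ≠ 0)
    have h3 : ((a j0 : ℕ) : k) * ∑ t, b (j0.succAbove i') t * ((ψ j0 t : ℤ) : k) =
        -((a (j0.succAbove i') : ℕ) : k) := by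
      calc ((a j0 : ℕ) : k) * ∑ t, b (j0.succAbove i') t * ((ψ j0 t : ℤ) : k)
          = ∑ t, b (j0.succAbove i') t * (((a j0 : ℕ) : k) * ((ψ j0 t : ℤ) : k)) := by
            rw [Finset.mul_sum]
            exact Finset.sum_congr rfl fun t _ => by ring
        _ = ∑ t, b (j0.succAbove i') t * (-∑ l : Fin d, ((a (j0.succAbove l) : ℕ) : k) *
              ((ψ (j0.succAbove l) t : ℤ) : k)) := by
            exact Finset.sum_congr rfl fun t _ => by rw [hra]
        _ = -∑ l : Fin d, ((a (j0.succAbove l) : ℕ) : k) *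
              ∑ t, b (j0.succAbove i') t * ((ψ (j0.succAbove l) t : ℤ) : k) := by
            simp only [mul_neg, Finset.sum_neg_distrib, Finset.mul_sum]
            rw [Finset.sum_comm]
            congr 1
            exact Finset.sum_congr rfl fun l _ => Finset.sum_congr rfl fun t _ => by ring
        _ = -((a (j0.succAbove i') : ℕ) : k) := by
            congr 1
            rw [Finset.sum_eq_single i']
            · rw [key, if_pos rfl, mul_one]
            · intro l _ hl
              rw [key, if_neg (fun h => hl h.symm), mul_zero]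
            · intro h; exact absurd (Finset.mem_univ _) h
    rw [eq_neg_iff_add_eq_zero]
    field_simp
    linear_combination h3

/-- dual coefficients -/
theorem pf_DUA : T_DUA := by
  intro k _ _ _ m d W K H f π ψ a c0 h j0
  exact dua_aux k d ψ a h.ap h.ra h.rl j0

end Pool.Agent.H53.TG
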