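import Pool.Agent.H15.TG.Targets

set_option autoImplicit false

namespace Pool.Agent.H53.TG

open MvPolynomial Pool.Agent.H2.ST Pool.Agent.H15.TG

/-- rules for the Hamiltonians with coefficients -/
theorem pf_GBR : T_GBR := by
  classical
  intro k _ _ _ m d W K H f h b
  refine ⟨?_, ?_, ?_, ?_⟩
  · unfold Gb
    exact Subalgebra.sum_mem _ fun t _ => Subalgebra.smul_mem _ (h.hK t) _
  · unfold Gb
    exact Submodule.sum_mem _ fun t _ => Submodule.smul_mem _ _ (h.h0 t)
  · unfold Gb
    rw [map_sum]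
    refine Finset.sum_eq_zero fun t _ => ?_
    rw [smul_eq_C_mul, map_mul, h.hc t, mul_zero]
  · intro χ g hgK hgW
    unfold Gb
    rw [sum_br, Finset.sum_smul]
    refine Finset.sum_congr rfl fun t _ => ?_
    rw [smul_br, h.eu t χ g hgK hgW, smul_smul]

end Pool.Agent.H53.TG
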