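import Pool.Agent.H15.TG.Targets

set_option autoImplicit false

namespace Pool.Agent.H53.TG

open MvPolynomial Pool.Agent.H2.ST Pool.Agent.H15.TG

/-- derivations of the bracket are Hamiltonian -/
theorem pf_HAM (hPOI : T_POI) : T_HAM := by
  classical
  intro k _ _ m D hD
  -- the bracket of coordinates is constant
  have hll : ∀ i j : Fin m, br (X (Sum.inl i) : Pol k m) (X (Sum.inl j)) = 0 := by
    intro i j
    rw [br_inl, pderiv_X_of_ne (by simp), neg_zero]
  have hrr : ∀ i j : Fin m, br (X (Sum.inr i) : Pol k m) (X (Sum.inr j)) = 0 := by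
    intro i j
    rw [br_inr, pderiv_X_of_ne (by simp)]
  have hlr : ∀ i j : Fin m, ∃ c : k, br (X (Sum.inl i) : Pol k m) (X (Sum.inr j)) = C c := by
    intro i j
    rw [br_inr]
    by_cases hij : j = i
    · subst hij
      exact ⟨1, by rw [pderiv_X_self, C_1]⟩
    · exact ⟨0, by rw [pderiv_X_of_ne (by simpa using fun h : i = j => hij h.symm), C_0]⟩
  have hDC : ∀ c : k, D (C c) = 0 := fun c => Derivation.map_algebraMap _ _
  let G : Fin m ⊕ Fin m → Pol k m :=
    Sum.elim (fun i => D (X (Sum.inr i))) (fun i => - D (X (Sum.inl i)))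
  have hGl : ∀ i, G (Sum.inl i) = D (X (Sum.inr i)) := fun _ => rfl
  have hGr : ∀ i, G (Sum.inr i) = - D (X (Sum.inl i)) := fun _ => rfl
  -- closedness
  have hcl : ∀ i j, pderiv i (G j) = pderiv j (G i) := by
    intro s t
    rcases s with i | i <;> rcases t with j | j
    · rw [hGl, hGl]
      have h1 := hD (X (Sum.inr i)) (X (Sum.inr j))
      rw [hrr, map_zero, br_inr, br_anti (X (Sum.inr i)), br_inr] at h1
      linear_combination h1
    · rw [hGl, hGr]
      obtain ⟨c, hc⟩ := hlr j i
      have h1 := hD (X (Sum.inl j)) (X (Sum.inr i))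
      rw [hc, hDC, br_inr, br_anti (X (Sum.inl j)), br_inl] at h1
      rw [map_neg]
      linear_combination h1
    · rw [hGl, hGr]
      obtain ⟨c, hc⟩ := hlr i j
      have h1 := hD (X (Sum.inl i)) (X (Sum.inr j))
      rw [hc, hDC, br_inr, br_anti (X (Sum.inl i)), br_inl] at h1
      rw [map_neg]
      linear_combination -h1
    · rw [hGr, hGr]
      have h1 := hD (X (Sum.inl i)) (X (Sum.inl j))
      rw [hll, map_zero, br_inl, br_anti (X (Sum.inl i)), br_inl] at h1
      rw [map_neg, map_neg]
      linear_combination h1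
  obtain ⟨f, hf⟩ := hPOI k (Fin m ⊕ Fin m) G hcl
  refine ⟨f, ?_⟩
  have hDf : D = ad f := by
    apply MvPolynomial.derivation_ext
    intro s
    rw [ad_apply]
    rcases s with i | i
    · rw [br_inl, hf, hGr, neg_neg]
    · rw [br_inr, hf, hGl]
  intro g
  rw [hDf, ad_apply]

end Pool.Agent.H53.TG
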