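import Pool.Agent.H15.TG.Targets

set_option autoImplicit false

namespace Pool.Agent.H53.TG

open MvPolynomial Pool.Agent.H2.ST Pool.Agent.H15.TG

/-- occurring weights occur in the centralizer -/
theorem pf_COC : T_COC := by
  classical
  intro k _ _ _ m d W K H f h χ hχ
  obtain ⟨g, hgK, hgW, hg0⟩ := hχ
  have hex := h.fl g hgK
  have hit : ∀ n : ℕ, (br f)^[n] g ∈ K ∧ (br f)^[n] g ∈ W χ := by
    intro n
    induction n with
    | zero => exact ⟨hgK, hgW⟩
    | succ n ih =>
      rw [Function.iterate_succ_apply']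
      refine ⟨h.bk _ h.fK _ ih.1, ?_⟩
      have h1 := h.pbr 0 χ f _ h.f0 ih.2
      rwa [zero_add] at h1
  have hN := Nat.find_spec hex
  have hpos : Nat.find hex ≠ 0 := by
    intro h0
    rw [h0] at hN
    exact hg0 hN
  obtain ⟨n, hn⟩ := Nat.exists_eq_succ_of_ne_zero hpos
  refine ⟨(br f)^[n] g, ?_, (hit n).2, ?_⟩
  · rw [mem_Cf]
    refine ⟨(hit n).1, ?_⟩
    rw [hn, Function.iterate_succ_apply'] at hN
    exact hN
  · exact Nat.find_min hex (by omega)

end Pool.Agent.H53.TG
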